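import Pool.Agent.TwoCol.Fin
import Pool.Agent.TwoCol.Exu
import Pool.Agent.TwoCol.Det
import Pool.Agent.TwoCol.Cond
import Pool.Agent.TwoCol.Pair
import Pool.Agent.TwoCol.Path
import Pool.Agent.TwoCol.Prod
import Pool.Agent.TwoCol.Mom
import Pool.Agent.TwoCol.Deg
import Pool.Agent.TwoCol.Blue
import Pool.Agent.TwoCol.Core
import Pool.Agent.TwoCol.Start1
import Pool.Agent.TwoCol.Start2
import Pool.Agent.TwoCol.Start
import Pool.Agent.TwoCol.Ball

/-!
# The faster colour wins on the configuration model when edge lengths are bounded away from zero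

Full positive answer under both couplings.
-/

open MeasureTheory ProbabilityTheory Filter Topology
open scoped ENNReal NNReal

namespace Pool.Agent.Results.MP_884359_pr.RedWins

open Pool.Agent.TwoCol

/-- First part: for all crossing times bounded away from zero on a finite set of vertices the
competition has exactly one outcome.  Second part: for every `τ ∈ (2,3)`, every degree law with the
power-law bounds, every `c > 0`, `lam > 1`, every law `ν` of `X ≥ 0`, under the coupling (i)
(`ρ` is the law of `(X, X)`) and under the coupling (ii) (`ρ = ν × ν`), the number of red vertices is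
at least `(1 - ε) (n + 1)` and the number of blue vertices is at most `ε (n + 1)` with probability
tending to one, for every `ε > 0`. -/
theorem result :
    (∀ (V : Type) [Fintype V] (W : Bool → V → V → ℝ≥0∞) (src : Bool → V) (coin : V → Bool),
      (∃ c : ℝ≥0∞, 0 < c ∧ ∀ κ u v, c ≤ W κ u v) →
      ∃! p : (V → ℝ≥0∞) × (V → Option Bool), IsPainting W src coin p.1 p.2) ∧
    ∀ (τ : ℝ) (μ : Measure ℕ) [IsProbabilityMeasure μ] (c₁ C₁ : ℝ), Tail τ μ c₁ C₁ →
      ∀ (c lam : ℝ≥0), 0 < c → 1 < lam → ∀ (ν : Measure ℝ≥0) [IsProbabilityMeasure ν]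
        (ρ : Measure (ℝ≥0 × ℝ≥0)), (ρ = ν.map (fun x => (x, x)) ∨ ρ = ν.prod ν) →
        (∀ n, IsProbabilityMeasure (law μ ρ n)) ∧
        (∀ ε : ℝ, 0 < ε → Tendsto (fun n : ℕ => law μ ρ n
          {ω | ((painted c lam true ω).ncard : ℝ) < (1 - ε) * (n + 1)}) atTop (𝓝 0)) ∧
        (∀ ε : ℝ, 0 < ε → Tendsto (fun n : ℕ => law μ ρ n
          {ω | ε * (n + 1) < ((painted c lam false ω).ncard : ℝ)}) atTop (𝓝 0)) :=
  have hC := target_COND
  have hP := target_PAIR hC
  have hD := target_DEG target_MOM
  target_FIN target_EXU target_DET hC (target_BLUE hC (target_PATH hC hP) target_PROD target_MOM)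
    (target_CORE hP hD hC) (target_START hC (target_START1 hP hD hC)
      (target_START2 hC hP hD target_PROD target_MOM)) target_BALL

end Pool.Agent.Results.MP_884359_pr.RedWins
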